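import Pool.Agent.Helper9.TC.Defs

/-!
# Block L for MP_1181b9_nt: Legendre's sieve in real intervals
-/

set_option autoImplicit false
open Finset Real

namespace Pool.Agent.Helper82.TC
open Pool.Agent.Helper9.TC

open Classical in
/-- The finset of the naturals of the open real interval `(a, b)` without prime factor in `P`. -/
noncomputable def F (a b : ℝ) (P : Finset ℕ) : Finset ℕ :=
  (Finset.range ⌈b⌉₊).filter (fun m => a < m ∧ (m : ℝ) < b ∧ ∀ p ∈ P, ¬ p ∣ m)

theorem mem_F (a b : ℝ) (P : Finset ℕ) (m : ℕ) :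
    m ∈ F a b P ↔ a < m ∧ (m : ℝ) < b ∧ ∀ p ∈ P, ¬ p ∣ m := by
  unfold F
  rw [Finset.mem_filter, Finset.mem_range, Nat.lt_ceil]
  tauto

theorem natCard_F (a b : ℝ) (P : Finset ℕ) :
    Nat.card {m : ℕ // a < m ∧ (m : ℝ) < b ∧ ∀ p ∈ P, ¬ p ∣ m} = (F a b P).card :=
  Nat.subtype_card (F a b P) (fun m => mem_F a b P m)

/-- base case: odd numbers -/
theorem base (a b : ℝ) (ha : 0 ≤ a) (hab : a ≤ b) :
    |((F a b {2}).card : ℝ) - (b - a) * (1 - 1 / 2)| ≤ 1 := by
  have h1 : (F a b {2}).card = ⌈(b - 1) / 2⌉₊ - ⌊(a + 1) / 2⌋₊ := by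
    rw [← Nat.card_Ico]
    symm
    apply Finset.card_bij (fun j _ => 2 * j + 1)
    · intro j hj
      rw [Finset.mem_Ico, Nat.lt_ceil] at hj
      obtain ⟨h1, h2⟩ := hj
      rw [mem_F]
      have h3 : (a + 1) / 2 < j + 1 := (Nat.lt_floor_add_one _).trans_le (by exact_mod_cast (by omega))
      refine ⟨?_, ?_, ?_⟩
      · push_cast; linarith
      · push_cast; linarith
      · intro p hp
        rw [Finset.mem_singleton] at hp
        subst hp
        omega
    · intro j _ j' _ h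
      omega
    · intro m hm
      rw [mem_F] at hm
      obtain ⟨h1, h2, h3⟩ := hm
      have h4 := h3 2 (by simp)
      obtain ⟨j, hj⟩ : ∃ j, m = 2 * j + 1 := ⟨m / 2, by omega⟩
      subst hj
      push_cast at h1 h2
      refine ⟨j, ?_, rfl⟩
      rw [Finset.mem_Ico, Nat.lt_ceil]
      constructor
      · have : ⌊(a + 1) / 2⌋₊ < j + 1 := by
          rw [Nat.floor_lt (by linarith)]
          push_cast; linarith
        omega
      · linarith
  rw [h1]
  have h2 : (b - 1) / 2 ≤ ⌈(b - 1) / 2⌉₊ := Nat.le_ceil _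
  have h3 : (⌈(b - 1) / 2⌉₊ : ℝ) < (b - 1) / 2 + 1 := by
    rcases le_or_gt 0 ((b - 1) / 2) with h | h
    · exact Nat.ceil_lt_add_one h
    · rw [Nat.ceil_eq_zero.2 h.le]
      push_cast; linarith
  have h4 : (⌊(a + 1) / 2⌋₊ : ℝ) ≤ (a + 1) / 2 := Nat.floor_le (by linarith)
  have h5 : (a + 1) / 2 < ⌊(a + 1) / 2⌋₊ + 1 := Nat.lt_floor_add_one _
  rw [abs_le]
  rcases le_total ⌊(a + 1) / 2⌋₊ ⌈(b - 1) / 2⌉₊ with h | h
  · rw [Nat.cast_sub h]
    constructor <;> linarith
  · rw [Nat.sub_eq_zero_of_le h]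
    have h' : (⌈(b - 1) / 2⌉₊ : ℝ) ≤ ⌊(a + 1) / 2⌋₊ := by exact_mod_cast h
    push_cast
    constructor <;> linarith

/-- the multiples of `p` -/
theorem card_mult (P : Finset ℕ) (hP : ∀ q ∈ P, q.Prime) (p : ℕ) (hp : p.Prime) (hpP : p ∉ P)
    (a b : ℝ) :
    ((F a b P).filter (fun m => p ∣ m)).card = (F (a / p) (b / p) P).card := by
  have hp0 : (0 : ℝ) < p := by exact_mod_cast hp.pos
  symm
  apply Finset.card_bij (fun m _ => p * m)
  · intro m hm
    rw [mem_F] at hm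
    obtain ⟨h1, h2, h3⟩ := hm
    rw [div_lt_iff₀ hp0] at h1
    rw [lt_div_iff₀ hp0] at h2
    rw [Finset.mem_filter, mem_F]
    refine ⟨⟨?_, ?_, ?_⟩, dvd_mul_right _ _⟩
    · push_cast; linarith
    · push_cast; linarith
    · intro q hq hqd
      rcases (Nat.Prime.dvd_mul (hP q hq)).1 hqd with h | h
      · have := (Nat.prime_dvd_prime_iff_eq (hP q hq) hp).1 h
        subst this
        exact hpP hq
      · exact h3 q hq h
  · intro m _ m' _ h
    exact Nat.eq_of_mul_eq_mul_left hp.pos h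
  · intro m hm
    rw [Finset.mem_filter, mem_F] at hm
    obtain ⟨⟨h1, h2, h3⟩, m', rfl⟩ := hm
    push_cast at h1 h2
    refine ⟨m', ?_, rfl⟩
    rw [mem_F, div_lt_iff₀ hp0, lt_div_iff₀ hp0]
    refine ⟨by linarith, by linarith, ?_⟩
    intro q hq hqd
    exact h3 q hq (dvd_mul_of_dvd_right hqd _)

theorem F_insert (P : Finset ℕ) (p : ℕ) (a b : ℝ) :
    F a b (insert p P) = (F a b P).filter (fun m => ¬ p ∣ m) := by
  ext m
  rw [Finset.mem_filter, mem_F, mem_F]
  constructor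
  · rintro ⟨h1, h2, h3⟩
    exact ⟨⟨h1, h2, fun q hq => h3 q (Finset.mem_insert_of_mem hq)⟩,
      h3 p (Finset.mem_insert_self _ _)⟩
  · rintro ⟨⟨h1, h2, h3⟩, h4⟩
    refine ⟨h1, h2, fun q hq => ?_⟩
    rcases Finset.mem_insert.1 hq with rfl | hq
    · exact h4
    · exact h3 q hq

theorem legendre_F (Q : Finset ℕ) : (∀ p ∈ Q, p.Prime) → 2 ∉ Q → ∀ a b : ℝ, 0 ≤ a → a ≤ b →
    |((F a b (insert 2 Q)).card : ℝ) - (b - a) * ∏ p ∈ insert 2 Q, (1 - 1 / (p : ℝ))|
      ≤ 2 ^ Q.card := by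
  induction Q using Finset.induction_on with
  | empty =>
    intro _ _ a b ha hab
    have := base a b ha hab
    simpa using this
  | insert p Q hpQ ih =>
    intro hQ h2 a b ha hab
    have hpp : p.Prime := hQ p (Finset.mem_insert_self _ _)
    have hp0 : (0 : ℝ) < p := by exact_mod_cast hpp.pos
    have hQ' : ∀ q ∈ Q, q.Prime := fun q hq => hQ q (Finset.mem_insert_of_mem hq)
    have h2' : 2 ∉ Q := fun h => h2 (Finset.mem_insert_of_mem h)
    have hp2 : p ≠ 2 := by
      rintro rfl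
      exact h2 (Finset.mem_insert_self _ _)
    have hpP : p ∉ insert 2 Q := by
      rw [Finset.mem_insert]
      push Not
      exact ⟨hp2, hpQ⟩
    have hP : ∀ q ∈ insert 2 Q, q.Prime := by
      intro q hq
      rcases Finset.mem_insert.1 hq with rfl | hq
      · exact Nat.prime_two
      · exact hQ' q hq
    have e1 := ih hQ' h2' a b ha hab
    have e2 := ih hQ' h2' (a / p) (b / p) (by positivity)
      (by gcongr)
    rw [Finset.insert_comm 2 p Q, F_insert, Finset.prod_insert hpP, Finset.card_insert_of_notMem hpQ]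
    have hsum := Finset.card_filter_add_card_filter_not (s := F a b (insert 2 Q)) (fun m => p ∣ m)
    rw [card_mult (insert 2 Q) hP p hpp hpP a b] at hsum
    have hsum' : ((F (a / p) (b / p) (insert 2 Q)).card : ℝ) +
        (((F a b (insert 2 Q)).filter (fun m => ¬ p ∣ m)).card : ℝ) =
        ((F a b (insert 2 Q)).card : ℝ) := by exact_mod_cast hsum
    set c0 : ℝ := ((F a b (insert 2 Q)).card : ℝ)
    set c1 : ℝ := ((F (a / p) (b / p) (insert 2 Q)).card : ℝ)
    set c2 : ℝ := (((F a b (insert 2 Q)).filter (fun m => ¬ p ∣ m)).card : ℝ)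
    set W : ℝ := ∏ p ∈ insert 2 Q, (1 - 1 / (p : ℝ))
    have e3 : c2 - (b - a) * ((1 - 1 / (p : ℝ)) * W) =
        (c0 - (b - a) * W) - (c1 - (b / p - a / p) * W) := by
      have : c2 = c0 - c1 := by linarith
      rw [this]
      field_simp
      ring
    rw [e3, pow_succ]
    calc |(c0 - (b - a) * W) - (c1 - (b / p - a / p) * W)|
        ≤ |c0 - (b - a) * W| + |c1 - (b / p - a / p) * W| := abs_sub _ _
      _ ≤ 2 ^ Q.card * 2 := by linarith

/-- Natural numbers of the open real interval `(a, b)` not divisible by any prime of `P`. -/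
theorem legendre (P : Finset ℕ) (hP : ∀ p ∈ P, p.Prime) (h2 : 2 ∈ P) (a b : ℝ) (ha : 0 ≤ a)
    (hab : a ≤ b) :
    |((Nat.card {m : ℕ // a < m ∧ (m : ℝ) < b ∧ ∀ p ∈ P, ¬ p ∣ m} : ℝ)) -
      (b - a) * ∏ p ∈ P, (1 - 1 / (p : ℝ))| ≤ 2 ^ (P.card - 1) := by
  rw [natCard_F]
  have h := legendre_F (P.erase 2) (fun p hp => hP p (Finset.mem_of_mem_erase hp))
    (Finset.notMem_erase 2 P) a b ha hab
  rw [Finset.insert_erase h2, Finset.card_erase_of_mem h2] at h
  exact h

theorem mem_primesIoc (a b p : ℕ) : p ∈ primesIoc a b ↔ (a < p ∧ p ≤ b) ∧ p.Prime := by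
  unfold primesIoc
  rw [Finset.mem_filter, Finset.mem_Ioc]

/-- Legendre with the primes `≤ y`, union bound for the primes in `(y, z]`. -/
theorem roughSet_lower (y z n : ℕ) (hy : 2 ≤ y) (hyz : y ≤ z) :
    (2 * (n : ℝ) + 1) * V y * (1 - S y z) -
      (1 + ((primesIoc y z).card : ℝ)) * 2 ^ ((primesIoc 1 y).card - 1) ≤
        ((roughSet z n).card : ℝ) := by
  classical
  set P := primesIoc 1 y with hPdef
  have hP : ∀ p ∈ P, p.Prime := fun p hp => ((mem_primesIoc 1 y p).1 hp).2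
  have h2 : 2 ∈ P := (mem_primesIoc 1 y 2).2 ⟨⟨by norm_num, hy⟩, Nat.prime_two⟩
  set E : ℝ := 2 ^ (P.card - 1) with hE
  set A := F ((n : ℝ) ^ 2) (((n : ℝ) + 1) ^ 2) P with hA
  have hleg : ∀ a b : ℝ, 0 ≤ a → a ≤ b → |((F a b P).card : ℝ) - (b - a) * V y| ≤ E := by
    intro a b ha hab
    have := legendre P hP h2 a b ha hab
    rw [natCard_F] at this
    exact this
  have hn0 : (0 : ℝ) ≤ n := Nat.cast_nonneg n
  have hlow : (2 * (n : ℝ) + 1) * V y - E ≤ (A.card : ℝ) := by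
    have h := (abs_le.1 (hleg ((n : ℝ) ^ 2) (((n : ℝ) + 1) ^ 2) (by positivity) (by nlinarith))).1
    have e : (((n : ℝ) + 1) ^ 2 - (n : ℝ) ^ 2) = 2 * (n : ℝ) + 1 := by ring
    rw [e] at h
    linarith
  have hsub : A ⊆ roughSet z n ∪ (primesIoc y z).biUnion (fun p => A.filter (fun m => p ∣ m)) := by
    intro m hm
    have hm' := hm
    rw [hA, mem_F] at hm'
    obtain ⟨h1, h2', h3⟩ := hm'
    rw [Finset.mem_union]
    by_cases hr : Rough z m
    · left
      unfold roughSet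
      rw [Finset.mem_filter, Finset.mem_Ioo]
      refine ⟨⟨?_, ?_⟩, hr⟩
      · exact_mod_cast h1
      · exact_mod_cast h2'
    · right
      unfold Rough at hr
      push Not at hr
      obtain ⟨p, hp, hpm, hpz⟩ := hr
      rw [Finset.mem_biUnion]
      refine ⟨p, ?_, Finset.mem_filter.2 ⟨hm, hpm⟩⟩
      rw [mem_primesIoc]
      refine ⟨⟨?_, hpz⟩, hp⟩
      by_contra hpy
      exact h3 p ((mem_primesIoc 1 y p).2 ⟨⟨hp.one_lt, by omega⟩, hp⟩) hpm
  have hcard : (A.card : ℝ) ≤ ((roughSet z n).card : ℝ) +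
      ∑ p ∈ primesIoc y z, ((A.filter (fun m => p ∣ m)).card : ℝ) := by
    have h1 : A.card ≤ (roughSet z n).card +
        ∑ p ∈ primesIoc y z, (A.filter (fun m => p ∣ m)).card :=
      (Finset.card_le_card hsub).trans ((Finset.card_union_le _ _).trans
        (Nat.add_le_add_left Finset.card_biUnion_le _))
    exact_mod_cast h1
  have hsum : ∑ p ∈ primesIoc y z, ((A.filter (fun m => p ∣ m)).card : ℝ) ≤
      ∑ p ∈ primesIoc y z, ((2 * (n : ℝ) + 1) * V y * (1 / (p : ℝ)) + E) := by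
    apply Finset.sum_le_sum
    intro p hp
    have hp' := (mem_primesIoc y z p).1 hp
    have hp0 : (0 : ℝ) < p := by exact_mod_cast hp'.2.pos
    have hpP : p ∉ P := by
      intro h
      have := (mem_primesIoc 1 y p).1 h
      omega
    rw [hA, card_mult P hP p hp'.2 hpP]
    have h := (abs_le.1 (hleg ((n : ℝ) ^ 2 / p) (((n : ℝ) + 1) ^ 2 / p) (by positivity)
      (by gcongr; linarith))).2
    have e : (((n : ℝ) + 1) ^ 2 / p - (n : ℝ) ^ 2 / p) * V y =
        (2 * (n : ℝ) + 1) * V y * (1 / (p : ℝ)) := by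
      field_simp
      ring
    rw [e] at h
    linarith
  rw [Finset.sum_add_distrib, ← Finset.mul_sum, Finset.sum_const, nsmul_eq_mul] at hsum
  have hS : ∑ p ∈ primesIoc y z, 1 / (p : ℝ) = S y z := rfl
  rw [hS] at hsum
  have : (2 * (n : ℝ) + 1) * V y * (1 - S y z) = (2 * (n : ℝ) + 1) * V y -
    (2 * (n : ℝ) + 1) * V y * S y z := by ring
  rw [this]
  have : (1 + ((primesIoc y z).card : ℝ)) * E = E + ((primesIoc y z).card : ℝ) * E := by ring
  rw [this]
  linarith

end Pool.Agent.Helper82.TC
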